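import Pool.Agent.Lib.MP_ccffa6_gt.BR.Fam

/-!
A path of nondegenerate two-forms on `T ⊕ ℝ` gives a path of almost contact pairs, which starts at
a compatible complex structure and ends at a given tamed one.
-/

open Set Filter Topology
open scoped ContDiff RealInnerProductSpace

noncomputable section

namespace Pool.Agent.Lib.MP_ccffa6_gt

variable {V : Type} [NormedAddCommGroup V] [InnerProductSpace ℝ V] [FiniteDimensional ℝ V]
  [CompleteSpace V] {q : (V →L[ℝ] V) → V →L[ℝ] V}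

theorem br_amb (hq : br_Sq q) {M : Type} [TopologicalSpace M] {Q K : M → V →L[ℝ] V}
    {T : M → Submodule ℝ V} (hT : ∀ x u, u ∈ T x ↔ Q x u = u) (cQ : Continuous Q)
    (cK : Continuous K) (hQ : ∀ x, Q x * Q x = Q x) {H : ℝ × M → Bil (V × ℝ)}
    (cH : ContinuousOn H (Icc 0 1 ×ˢ univ))
    (nd : ∀ t ∈ Icc (0 : ℝ) 1, ∀ x, ND (pl (T x) ℝ) (H (t, x)))
    (hK : ∀ x u, Q x u = u → H (1, x) (0, 1) (u, 0) = 0 → Q x (K x u) = K x u ∧
      H (1, x) (0, 1) (K x u, 0) = 0 ∧ K x (K x u) = -u ∧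
      (u ≠ 0 → 0 < H (1, x) (u, 0) (K x u, 0))) :
    ∃ (b : ℝ × M → V →L[ℝ] ℝ) (J : ℝ × M → V →L[ℝ] V), ContinuousOn b (Icc 0 1 ×ˢ univ) ∧
      ContinuousOn J (Icc 0 1 ×ˢ univ) ∧
      (∀ t ∈ Icc (0 : ℝ) 1, ∀ x, (b (t, x)).comp (Q x) ≠ 0 ∧ ∀ u, Q x u = u → b (t, x) u = 0 →
        Q x (J (t, x) u) = J (t, x) u ∧ b (t, x) (J (t, x) u) = 0 ∧ J (t, x) (J (t, x) u) = -u) ∧
      (∀ x u, b (0, x) u = H (0, x) (0, 1) (u, 0) ∧ b (1, x) u = H (1, x) (0, 1) (u, 0)) ∧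
      (∀ x u, Q x u = u → b (1, x) u = 0 → J (1, x) u = K x u) ∧
      ∀ x u, Q x u = u → b (0, x) u = 0 → (u ≠ 0 → 0 < H (0, x) (u, 0) (J (0, x) u, 0)) ∧
        ∀ v, Q x v = v → b (0, x) v = 0 →
          H (0, x) (J (0, x) u, 0) (J (0, x) v, 0) = H (0, x) (u, 0) (v, 0) := by
  set s : Set (ℝ × M) := Icc 0 1 ×ˢ univ with hs
  let G : ℝ × M → Bil (V × ℝ) := fun z => H (min (2 * z.1) 1, z.2)
  have m : ∀ z ∈ s, min (2 * z.1) 1 ∈ Icc (0 : ℝ) 1 := fun z hz =>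
    ⟨le_min (by linarith [hz.1.1]) zero_le_one, min_le_right _ _⟩
  have cG : ContinuousOn G s := cH.comp (by fun_prop) fun z hz => ⟨m z hz, mem_univ _⟩
  let i := ContinuousLinearMap.inl ℝ V ℝ
  let b : ℝ × M → V →L[ℝ] ℝ := fun z => (G z (0, 1)).comp i
  let w : ℝ × M → Bil V := fun z => (G z).bilinearComp i i
  let p : ℝ × M → V →L[ℝ] V := fun z => br_pr (Q z.2) (b z)
  have cb : ContinuousOn b s := (cG.clm_apply continuousOn_const).clm_comp continuousOn_const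
  have cw : ContinuousOn w s := by
    rw [continuousOn_clm_apply]
    exact fun u => (cG.clm_apply continuousOn_const).clm_comp continuousOn_const
  have sp := fun z (hz : z ∈ s) =>
    br_split (hT z.2) (hQ z.2) (nd _ (m z hz) z.2) (a := b z) fun _ _ => rfl
  have pr := fun z (hz : z ∈ s) => br_pr_spec (hQ z.2) (sp z hz).1
  have cp : ContinuousOn p s :=
    br_pr_cont (cQ.comp continuous_snd).continuousOn cb fun z hz => (sp z hz).1
  obtain ⟨I, cI, hI⟩ := br_polar hq cp cw (fun z hz => (pr z hz).2.2.1) (fun z hz => (sp z hz).2.1)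
    fun z hz => (sp z hz).2.2
  let C : ℝ × M → V →L[ℝ] V := fun z =>
    1 - max (z.1 - 1 / 2) 0 • p z - max (z.1 - 1 / 2) 0 • (K z.2 * I z * p z)
  have cσ : ContinuousOn (fun z : ℝ × M => max (z.1 - 1 / 2) 0) s := by fun_prop
  have cC : ContinuousOn C s := (continuousOn_const.sub (cσ.smul cp)).sub
    (cσ.smul (((cK.comp continuous_snd).continuousOn.mul cI).mul cp))
  have c0 : ∀ z : ℝ × M, z.1 ≤ 1 / 2 → C z = 1 := fun z h => by
    simp only [C, max_eq_right (sub_nonpos.2 h), zero_smul, sub_zero]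
  have key : ∀ z ∈ s, IsUnit (C z) ∧ br_Cx (p z) (C z * I z * Ring.inverse (C z)) ∧
      (z.1 = 1 → ∀ u, p z u = u → (C z * I z * Ring.inverse (C z)) u = K z.2 u) := by
    intro z hz
    rcases le_total z.1 (1 / 2) with h | h
    · rw [c0 z h, Ring.inverse_one, one_mul, mul_one]
      exact ⟨isUnit_one, (hI z hz).1, fun e => by linarith⟩
    · have e : G z = H (1, z.2) := by simp only [G, min_eq_right (by linarith : 1 ≤ 2 * z.1)]
      have f : ∀ u, p z u = u ↔ Q z.2 u = u ∧ H (1, z.2) (0, 1) (u, 0) = 0 := fun u =>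
        e ▸ (pr z hz).2.2.2.1 u
      have k := fun u (hu : p z u = u) => hK z.2 u ((f u).1 hu).1 ((f u).1 hu).2
      obtain ⟨a1, a2, a3⟩ := br_conj (pr z hz).2.2.1 (hI z hz).1 (K := K z.2)
        ⟨fun u hu => (f _).2 ⟨(k u hu).1, (k u hu).2.1⟩, fun u hu => (k u hu).2.2.1⟩ (hI z hz).2.1
        (fun u hu h0 => by
          show 0 < G z (u, 0) (K z.2 u, 0)
          rw [e]
          exact (k u hu).2.2.2 h0)
        (le_max_right (z.1 - 1 / 2) 0) (max_le (by linarith [hz.1.2]) (by norm_num)) (C := C z) rfl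
      exact ⟨a1, a2, fun e1 => a3 (by rw [e1]; norm_num)⟩
  have z0 : ∀ x : M, ((0 : ℝ), x) ∈ s := fun x => ⟨⟨le_rfl, zero_le_one⟩, mem_univ _⟩
  have z1 : ∀ x : M, ((1 : ℝ), x) ∈ s := fun x => ⟨⟨zero_le_one, le_rfl⟩, mem_univ _⟩
  have g0 : ∀ x, G (0, x) = H (0, x) := fun x => by simp [G]
  have g1 : ∀ x, G (1, x) = H (1, x) := fun x => by simp [G]
  refine ⟨b, fun z => C z * I z * Ring.inverse (C z), cb,
    (cC.mul cI).mul (br_inv_cont cC fun z hz => (key z hz).1), fun t ht x => ?_,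
    fun x u => ⟨g0 x ▸ rfl, g1 x ▸ rfl⟩,
    fun x u h1 h2 => (key _ (z1 x)).2.2 rfl u (((pr _ (z1 x)).2.2.2.1 u).2 ⟨h1, h2⟩),
    fun x u h1 h2 => ?_⟩
  · have hz : (t, x) ∈ s := ⟨ht, mem_univ _⟩
    refine ⟨(sp _ hz).1, fun u h1 h2 => ?_⟩
    have hu := ((pr _ hz).2.2.2.1 u).2 ⟨h1, h2⟩
    have h3 := ((pr _ hz).2.2.2.1 _).1 ((key _ hz).2.1.map u hu)
    exact ⟨h3.1, h3.2, (key _ hz).2.1.sq u hu⟩
  · have hu := ((pr _ (z0 x)).2.2.2.1 u).2 ⟨h1, h2⟩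
    simp only [c0 (0, x) (by norm_num), Ring.inverse_one, one_mul, mul_one, ← g0]
    exact ⟨(hI _ (z0 x)).2.1 u hu, fun v k1 k2 =>
      (hI _ (z0 x)).2.2 u v hu (((pr _ (z0 x)).2.2.2.1 v).2 ⟨k1, k2⟩)⟩

end Pool.Agent.Lib.MP_ccffa6_gt
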