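import Pool.Agent.Lib.MP_ccffa6_gt.K.Level
import Pool.Agent.Lib.MP_ccffa6_gt.K.Forms
import Pool.Agent.Lib.MP_ccffa6_gt.Stmt

/-!
The image of a smooth embedding of an abstract manifold: charts, tangent spaces, the topology of
the tangent bundle, pull-back of forms.
-/

open Set Filter Topology Manifold
open scoped ContDiff

noncomputable section

namespace Pool.Agent.Lib.MP_ccffa6_gt

variable {H : Type} [NormedAddCommGroup H] [NormedSpace ℝ H] [FiniteDimensional ℝ H]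
  {M : Type} [TopologicalSpace M] [ChartedSpace H M] [IsManifold 𝓘(ℝ, H) ∞ M]
  {V : Type} [NormedAddCommGroup V] [NormedSpace ℝ V] [FiniteDimensional ℝ V] {e : M → V}

/-- The differential of `e`. -/
def br_D (H : Type) [NormedAddCommGroup H] [NormedSpace ℝ H] [ChartedSpace H M] (e : M → V)
    (x : M) : H →L[ℝ] V := mfderiv 𝓘(ℝ, H) 𝓘(ℝ, V) e x

/-- Smooth embeddings. -/
structure br_Emb (H : Type) [NormedAddCommGroup H] [NormedSpace ℝ H] [ChartedSpace H M]
    (e : M → V) : Prop where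
  sm : ContMDiff 𝓘(ℝ, H) 𝓘(ℝ, V) ∞ e
  ind : IsInducing e
  imm : ∀ x, Function.Injective (br_D H e x)

omit [FiniteDimensional ℝ H] in
theorem br_chart_id (x : M) (v : H) :
    mfderiv 𝓘(ℝ, H) 𝓘(ℝ, H) (chartAt H x).symm (chartAt H x x) v = v := by
  have h1 := congrArg (fun T => T v) ((mdifferentiable_chart (I := 𝓘(ℝ, H)) x).symm_comp_deriv
    (mem_chart_source H x))
  have h2 : mfderiv 𝓘(ℝ, H) 𝓘(ℝ, H) (chartAt H x) x v = v := by
    rw [mfderiv_chartAt_eq_tangentCoordChange (mem_chart_source H x)]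
    exact tangentCoordChange_self (I := 𝓘(ℝ, H)) (v := v) (mem_extChartAt_source x)
  have h3 : mfderiv 𝓘(ℝ, H) 𝓘(ℝ, H) (chartAt H x).symm (chartAt H x x)
    (mfderiv 𝓘(ℝ, H) 𝓘(ℝ, H) (chartAt H x) x v) = v := h1
  rwa [h2] at h3

omit [FiniteDimensional ℝ H] [FiniteDimensional ℝ V] in
theorem br_Emb.fderiv_symm (h : br_Emb H e) (x : M) {z : H} (hz : z ∈ (chartAt H x).target) :
    fderiv ℝ (e ∘ (chartAt H x).symm) z = (br_D H e ((chartAt H x).symm z)).comp
      (mfderiv 𝓘(ℝ, H) 𝓘(ℝ, H) (chartAt H x).symm z) := by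
  rw [← mfderiv_eq_fderiv]
  exact mfderiv_comp z (h.sm.mdifferentiableAt (by simp))
    ((mdifferentiable_chart (I := 𝓘(ℝ, H)) x).mdifferentiableAt_symm hz)

theorem br_Emb.chart (h : br_Emb H e) (x : M) : ∃ (φ : H → V) (ψ : V → H),
    Chart (range e) (e x) φ ψ ∧ ψ ∘ e =ᶠ[𝓝 x] chartAt H x ∧
      φ =ᶠ[𝓝 (chartAt H x x)] e ∘ (chartAt H x).symm ∧
      fderiv ℝ φ (chartAt H x x) = br_D H e x := by
  set c := chartAt H x with hc
  have hx : x ∈ c.source := mem_chart_source H x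
  have hp : c x ∈ c.target := c.map_source hx
  have g1 : ContDiffOn ℝ ∞ (e ∘ c.symm) c.target :=
    (h.sm.comp_contMDiffOn (contMDiffOn_chart_symm (I := 𝓘(ℝ, H)))).contDiffOn
  obtain ⟨φ, hφ, e1⟩ := exists_smooth_nhds c.open_target hp g1
  have d1 : fderiv ℝ φ (c x) = br_D H e x := by
    rw [e1.fderiv_eq, h.fderiv_symm x hp, c.left_inv hx]
    ext v
    exact congrArg (br_D H e x) (br_chart_id (H := H) x v)
  obtain ⟨ψ, hψ, e2⟩ := (isSub_of_isOpen (E := H) isOpen_univ).local_left_inverse hφ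
    (mem_univ (c x)) fun v _ hv => h.imm x (by rw [← d1, hv, map_zero])
  rw [nhdsWithin_univ] at e2
  have t : Tendsto c (𝓝 x) (𝓝 (c x)) := c.continuousAt hx
  have e3 : ∀ᶠ y in 𝓝 x, φ (c y) = e y := by
    filter_upwards [t.eventually e1, c.open_source.mem_nhds hx] with y h1 h2
    rw [h1, Function.comp_apply, c.left_inv h2]
  have e4 : ψ ∘ e =ᶠ[𝓝 x] c := by
    filter_upwards [t.eventually e2, e3] with y h1 h2
    rw [Function.comp_apply, ← h2, h1]
  refine ⟨φ, ψ, ⟨hφ, hψ, ?_, ?_⟩, e4, e1, d1⟩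
  · rw [← h.ind.map_nhds_eq, eventually_map]
    filter_upwards [e3, e4] with y h1 h2
    rw [← h1]
    exact congrArg φ (h1 ▸ h2)
  · rw [show ψ (e x) = c x from e4.self_of_nhds]
    filter_upwards [e1, e2] with z h1 h2
    exact ⟨⟨_, h1.symm⟩, h2⟩

theorem br_Emb.mem_tan (h : br_Emb H e) (x : M) (v : V) :
    v ∈ Tan (range e) (e x) ↔ ∃ u, br_D H e x u = v := by
  obtain ⟨φ, ψ, h1, h2, -, h4⟩ := h.chart x
  rw [h1.mem_tan (mem_range_self x), show ψ (e x) = chartAt H x x from h2.self_of_nhds, h4]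

omit [FiniteDimensional ℝ H] [FiniteDimensional ℝ V] in
theorem br_Emb.smD (h : br_Emb H e) : ContMDiff 𝓘(ℝ, H).tangent 𝓘(ℝ, V) ∞
    fun v : TangentBundle 𝓘(ℝ, H) M => br_D H e v.proj v.snd :=
  (contMDiff_snd_tangentBundle_modelSpace V 𝓘(ℝ, V)).comp
    (h.sm.contMDiff_tangentMap (m := ∞) (by simp))

/-- A map to the tangent bundle is continuous when its image under the differential is. -/
theorem br_Emb.lift (h : br_Emb H e) {X : Type} [TopologicalSpace X] {s : Set X} {f : X → M}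
    {u : X → H} (hf : ContinuousOn f s) (hu : ContinuousOn (fun z => br_D H e (f z) (u z)) s) :
    ContinuousOn (fun z => (⟨f z, u z⟩ : TangentBundle 𝓘(ℝ, H) M)) s := by
  intro z hz
  rw [FiberBundle.continuousWithinAt_totalSpace]
  refine ⟨hf z hz, ?_⟩
  obtain ⟨φ, ψ, h1, h2, -, -⟩ := h.chart (f z)
  have c1 : ContinuousWithinAt (fun y => fderiv ℝ ψ (e (f y)) (br_D H e (f y) (u y))) s z :=
    (((h1.smψ.continuous_fderiv (by simp)).comp h.sm.continuous).continuousAt.comp_continuousWithinAt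
      (hf z hz)).clm_apply (hu z hz)
  have k : ∀ᶠ y in 𝓝 (f z), ∀ v : H, (trivializationAt H (TangentSpace 𝓘(ℝ, H)) (f z)
      (⟨y, v⟩ : TangentBundle 𝓘(ℝ, H) M)).2 = fderiv ℝ ψ (e y) (br_D H e y v) := by
    filter_upwards [h2.eventually_nhds, (chartAt H (f z)).open_source.mem_nhds
      (mem_chart_source H (f z))] with y h3 h4 v
    have a1 := congrArg (fun T => T v) (TangentBundle.continuousLinearMapAt_trivializationAt
      (I := 𝓘(ℝ, H)) h4)
    have a2 : mfderiv 𝓘(ℝ, H) 𝓘(ℝ, H) (extChartAt 𝓘(ℝ, H) (f z)) y =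
        mfderiv 𝓘(ℝ, H) 𝓘(ℝ, H) (ψ ∘ e) y := (EventuallyEq.mfderiv_eq h3).symm
    have a3 := mfderiv_comp (I := 𝓘(ℝ, H)) (I' := 𝓘(ℝ, V)) (I'' := 𝓘(ℝ, H)) y
      (h1.smψ.contMDiff.mdifferentiableAt (by simp)) (h.sm.mdifferentiableAt (by simp))
    rw [mfderiv_eq_fderiv] at a3
    rw [a2, a3] at a1
    refine Eq.trans ?_ a1
    exact (Bundle.Trivialization.continuousLinearMapAt_apply_of_mem ℝ
      (trivializationAt H (TangentSpace 𝓘(ℝ, H)) (f z)) h4 v).symm
  refine c1.congr_of_eventuallyEq ?_ (k.self_of_nhds _)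
  filter_upwards [(hf z hz).eventually k] with y hy using hy _

/-- The pull-back of an ambient one-form. -/
def br_pull (H : Type) [NormedAddCommGroup H] [NormedSpace ℝ H] [ChartedSpace H M] (e : M → V)
    (β : Form1 V) : Covec (H := H) M := fun x => (β (e x)).comp (br_D H e x)

omit [FiniteDimensional ℝ H] [FiniteDimensional ℝ V] in
theorem br_Emb.smooth (h : br_Emb H e) {β : Form1 V} (hβ : ContDiff ℝ ∞ β) :
    SmoothForm (br_pull H e β) :=
  ((hβ.contMDiff.comp h.sm).comp (Bundle.contMDiff_proj _)).clm_apply h.smD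

theorem br_Emb.extD (h : br_Emb H e) {β : Form1 V} (hβ : ContDiff ℝ ∞ β) (x : M) (u v : H) :
    extD (br_pull H e β) x u v = dF β (e x) (br_D H e x u) (br_D H e x v) := by
  obtain ⟨φ, ψ, h1, -, h3, h4⟩ := h.chart x
  have hx := mem_chart_source H x
  have e1 : inChart (br_pull H e β) x =ᶠ[𝓝 (chartAt H x x)] pb φ β := by
    filter_upwards [h3.eventually_nhds, (chartAt H x).open_target.mem_nhds
      ((chartAt H x).map_source hx)] with z a1 a2
    rw [pb, EventuallyEq.fderiv_eq a1, h.fderiv_symm x a2, a1.self_of_nhds]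
    rfl
  have e2 : φ (chartAt H x x) = e x := by
    rw [h3.self_of_nhds, Function.comp_apply, (chartAt H x).left_inv hx]
  have e3 := dF_pb (x := chartAt H x x) (h1.smφ.contDiffAt.of_le (WithTop.coe_le_coe.2 (le_top : (2 : ℕ∞) ≤ ⊤)))
    (hβ.differentiable (by simp) _) u v
  rw [e2, h4] at e3
  rw [← e3, MP_ccffa6_gt.extD, e1.fderiv_eq]
  rfl

omit [FiniteDimensional ℝ H] [FiniteDimensional ℝ V] [IsManifold 𝓘(ℝ, H) ∞ M] in
theorem br_Emb.cmap (h : br_Emb H e) {β : Form1 V} {F : Type} [NormedAddCommGroup F]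
    [NormedSpace ℝ F] {U : Set F} {lam : Form1 F} {f : F → M}
    (hf : CMapM (br_pull H e β) U lam f) : CMap (range e) β U lam (e ∘ f) := by
  have d : ∀ y ∈ U, fderiv ℝ (e ∘ f) y =
      (br_D H e (f y)).comp (mfderiv 𝓘(ℝ, F) 𝓘(ℝ, H) f y) := fun y hy => by
    rw [← mfderiv_eq_fderiv]
    exact mfderiv_comp y (h.sm.mdifferentiableAt (by simp))
      ((hf.sm.contMDiffAt (hf.op.mem_nhds hy)).mdifferentiableAt (by simp))
  refine ⟨hf.op, (h.sm.comp_contMDiffOn hf.sm).contDiffOn, fun y _ => mem_range_self _,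
    fun y hy => ?_, fun y hy v => ?_⟩
  · rw [d y hy]
    exact (h.imm _).comp (hf.inj y hy)
  · rw [d y hy]
    exact hf.ker y hy v

end Pool.Agent.Lib.MP_ccffa6_gt
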