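import Pool.Agent.Lib.MP_ccffa6_gt.BR.Polar

/-!
Nondegenerate two-forms on `T ⊕ ℝ` versus pairs (covector, complex structure on its kernel),
in continuous families.
-/

open Set Filter Topology
open scoped ContDiff RealInnerProductSpace

noncomputable section

namespace Pool.Agent.Lib.MP_ccffa6_gt

variable {V : Type} [NormedAddCommGroup V] [InnerProductSpace ℝ V] [FiniteDimensional ℝ V]
  [CompleteSpace V] {q : (V →L[ℝ] V) → V →L[ℝ] V}

/-- A vector in the range of `Q` on which `a` takes the value one. -/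
def br_vec (Q : V →L[ℝ] V) (a : V →L[ℝ] ℝ) : V :=
  (‖a.comp Q‖ ^ 2)⁻¹ • Q ((InnerProductSpace.toDual ℝ V).symm (a.comp Q))

/-- A projector onto `range Q ∩ ker a`. -/
def br_pr (Q : V →L[ℝ] V) (a : V →L[ℝ] ℝ) : V →L[ℝ] V := Q - (a.comp Q).smulRight (br_vec Q a)

omit [FiniteDimensional ℝ V] in
theorem br_pr_spec {Q : V →L[ℝ] V} {a : V →L[ℝ] ℝ} (hQ : Q * Q = Q) (ha : a.comp Q ≠ 0) :
    Q (br_vec Q a) = br_vec Q a ∧ a (br_vec Q a) = 1 ∧ br_pr Q a * br_pr Q a = br_pr Q a ∧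
      (∀ u, br_pr Q a u = u ↔ Q u = u ∧ a u = 0) ∧
      ∀ u, br_pr Q a u = Q u - a (Q u) • br_vec Q a := by
  have q1 : ∀ u, Q (Q u) = Q u := fun u => congrArg (fun T : V →L[ℝ] V => T u) hQ
  have h1 : Q (br_vec Q a) = br_vec Q a := by rw [br_vec, map_smul, q1]
  have h2 : a (br_vec Q a) = 1 := by
    have e : a (Q ((InnerProductSpace.toDual ℝ V).symm (a.comp Q))) = ‖a.comp Q‖ ^ 2 := by
      rw [← ContinuousLinearMap.comp_apply, ← InnerProductSpace.toDual_symm_apply,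
        real_inner_self_eq_norm_sq, LinearIsometryEquiv.norm_map]
    rw [br_vec, map_smul, e, smul_eq_mul, inv_mul_cancel₀ (pow_ne_zero 2 (norm_ne_zero_iff.2 ha))]
  have h3 : ∀ u, br_pr Q a u = Q u - a (Q u) • br_vec Q a := fun u => rfl
  have h4 : ∀ u, br_pr Q a u = u ↔ Q u = u ∧ a u = 0 := fun u => by
    refine ⟨fun h => ⟨?_, ?_⟩, fun h => by rw [h3, h.1, h.2, zero_smul, sub_zero]⟩
    · rw [← h, h3, map_sub, map_smul, q1, h1]
    · rw [← h, h3, map_sub, map_smul, h2, smul_eq_mul, mul_one, sub_self]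
  refine ⟨h1, h2, ContinuousLinearMap.ext fun u => (h4 (br_pr Q a u)).2 ⟨?_, ?_⟩, h4, h3⟩
  · rw [h3, map_sub, map_smul, q1, h1]
  · rw [h3, map_sub, map_smul, h2, smul_eq_mul, mul_one, sub_self]

theorem br_pr_cont {X : Type} [TopologicalSpace X] {s : Set X} {Q : X → V →L[ℝ] V}
    {a : X → V →L[ℝ] ℝ} (hQ : ContinuousOn Q s) (ha : ContinuousOn a s)
    (h : ∀ x ∈ s, (a x).comp (Q x) ≠ 0) : ContinuousOn (fun x => br_pr (Q x) (a x)) s := by
  have h1 : ContinuousOn (fun x => (a x).comp (Q x)) s := ha.clm_comp hQ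
  have h2 : ContinuousOn (fun x => br_vec (Q x) (a x)) s :=
    ((h1.norm.pow 2).inv₀ fun x hx => pow_ne_zero 2 (norm_ne_zero_iff.2 (h x hx))).smul
      (hQ.clm_apply ((InnerProductSpace.toDual ℝ V).symm.continuous.comp_continuousOn h1))
  refine hQ.sub ?_
  rw [continuousOn_clm_apply]
  exact fun u => (h1.clm_apply continuousOn_const).smul h2

omit [FiniteDimensional ℝ V] [CompleteSpace V] in
theorem br_mem {Q : V →L[ℝ] V} {T : Submodule ℝ V} (hT : ∀ u, u ∈ T ↔ Q u = u) (u : V × ℝ) :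
    u ∈ pl T ℝ ↔ Q u.1 = u.1 := by
  simp [pl, hT]

/-- The form attached to a covector and a complex structure on its kernel. -/
theorem br_form {X : Type} [TopologicalSpace X] {Q K : X → V →L[ℝ] V} {a : X → V →L[ℝ] ℝ}
    {T : X → Submodule ℝ V} (hT : ∀ x u, u ∈ T x ↔ Q x u = u)
    (cQ : Continuous Q) (cK : Continuous K) (ca : Continuous a) (hQ : ∀ x, Q x * Q x = Q x)
    (ha : ∀ x, (a x).comp (Q x) ≠ 0) (hK : ∀ x, br_Cx (br_pr (Q x) (a x)) (K x)) :
    ∃ Ω : X → Bil (V × ℝ), Continuous Ω ∧ ∀ x, ND (pl (T x) ℝ) (Ω x) ∧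
      (∀ u, Ω x (0, 1) (u, 0) = a x u) ∧
      ∀ u, br_pr (Q x) (a x) u = u → u ≠ 0 → 0 < Ω x (u, 0) (K x u, 0) := by
  let p : X → V →L[ℝ] V := fun x => br_pr (Q x) (a x)
  have cp : Continuous p :=
    continuousOn_univ.1 (br_pr_cont cQ.continuousOn ca.continuousOn fun x _ => ha x)
  let f := ContinuousLinearMap.fst ℝ V ℝ
  let g := ContinuousLinearMap.snd ℝ V ℝ
  let i : Bil V := innerSL ℝ
  let Ω : X → Bil (V × ℝ) := fun x =>
    i.bilinearComp ((K x * p x).comp f) ((p x).comp f) -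
      i.bilinearComp ((p x).comp f) ((K x * p x).comp f) +
      (g.smulRight ((a x).comp f) - ((a x).comp f).smulRight g)
  have e : ∀ x u v, Ω x u v = ⟪K x (p x u.1), p x v.1⟫ - ⟪p x u.1, K x (p x v.1)⟫ +
      (u.2 * a x v.1 - a x u.1 * v.2) := fun x u v => rfl
  refine ⟨Ω, ?_, fun x => ?_⟩
  · rw [continuous_clm_apply]
    intro u
    rw [continuous_clm_apply]
    intro v
    simp only [e]
    fun_prop
  obtain ⟨r1, r2, -, r4, -⟩ := br_pr_spec (hQ x) (ha x)
  have t : ∀ u, p x u = u → u ≠ 0 → 0 < Ω x (u, 0) (K x u, 0) := fun u hu h0 => by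
    have k1 : p x (K x u) = K x u := (hK x).map u hu
    rw [e]
    simp only [hu, k1, (hK x).sq u hu, inner_neg_right, real_inner_self_eq_norm_sq]
    have := norm_pos_iff.2 h0
    nlinarith [sq_nonneg ‖K x u‖]
  refine ⟨⟨fun u _ => ?_, fun u hu h => ?_⟩, fun u => by simp [e], t⟩
  · rw [e, real_inner_comm]
    ring
  · have a1 : a x u.1 = 0 := by simpa [e] using h (0, 1) ((br_mem (hT x) _).2 (by simp))
    have a2 : p x u.1 = u.1 := (r4 _).2 ⟨(br_mem (hT x) _).1 hu, a1⟩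
    obtain ⟨b1, b2⟩ := (r4 _).1 ((hK x).map _ a2)
    have a3 : u.1 = 0 := by
      by_contra h0
      have c1 := t _ a2 h0
      have c2 := h (K x u.1, 0) ((br_mem (hT x) _).2 b1)
      rw [e] at c1 c2
      simp only [b2, mul_zero] at c1 c2
      linarith
    have a4 := h (br_vec (Q x) (a x), 0) ((br_mem (hT x) _).2 r1)
    rw [e] at a4
    exact Prod.ext a3 (by simpa [a3, r2] using a4)

omit [FiniteDimensional ℝ V] in
/-- The covector and the nondegenerate form on its kernel attached to a form on `T ⊕ ℝ`. -/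
theorem br_split {Q : V →L[ℝ] V} {T : Submodule ℝ V} (hT : ∀ u, u ∈ T ↔ Q u = u) (hQ : Q * Q = Q)
    {Ω : Bil (V × ℝ)} (h : ND (pl T ℝ) Ω) {a : V →L[ℝ] ℝ}
    (ha : ∀ u, Q u = u → a u = Ω (0, 1) (u, 0)) :
    a.comp Q ≠ 0 ∧ (∀ u, br_pr Q a u = u → Ω (u, 0) (u, 0) = 0) ∧ ∀ u, br_pr Q a u = u →
      (∀ v, br_pr Q a v = v → Ω (u, 0) (v, 0) = 0) → u = 0 := by
  have q1 : ∀ u, Q (Q u) = Q u := fun u => congrArg (fun T : V →L[ℝ] V => T u) hQ
  have m0 : ((0, 1) : V × ℝ) ∈ pl T ℝ := (br_mem hT _).2 (by simp)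
  have d : ∀ v : V × ℝ, v = (v.1, 0) + v.2 • ((0, 1) : V × ℝ) := fun v => by simp
  have h0 : a.comp Q ≠ 0 := fun e => by
    have := h.2 _ m0 fun v hv => by
      have v1 := (br_mem hT _).1 hv
      have v2 : a (Q v.1) = 0 := congrArg (fun T : V →L[ℝ] ℝ => T v.1) e
      rw [d v, map_add, map_smul, h.1 _ m0, ← ha _ v1, ← v1, v2]
      simp
    simp at this
  obtain ⟨r1, r2, r3, r4, r5⟩ := br_pr_spec hQ h0
  refine ⟨h0, fun u hu => h.1 _ ((br_mem hT _).2 ((r4 u).1 hu).1), fun u hu hv => ?_⟩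
  obtain ⟨u1, u2⟩ := (r4 u).1 hu
  have mu : ((u, 0) : V × ℝ) ∈ pl T ℝ := (br_mem hT _).2 u1
  have s1 : Ω (u, 0) (0, 1) = 0 := by
    have := h.1 _ (add_mem mu m0)
    simp only [map_add, add_apply, h.1 _ mu, h.1 _ m0, ← ha u u1, u2] at this
    linarith
  set c := Ω (u, 0) (br_vec Q a, 0) with hc
  have := h.2 ((u, 0) - c • ((0, 1) : V × ℝ)) (sub_mem mu (Submodule.smul_mem _ _ m0)) fun v hv' => by
    have v1 := (br_mem hT _).1 hv'
    have v2 : ((v.1, 0) : V × ℝ) = (br_pr Q a v.1, 0) + a v.1 • (br_vec Q a, 0) := by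
      rw [r5, v1]
      simp
    have v3 : Ω (u, 0) (br_pr Q a v.1, 0) = 0 :=
      hv _ (congrArg (fun T : V →L[ℝ] V => T v.1) r3)
    have v4 : Ω (u, 0) (v.1, 0) = a v.1 * c := by
      rw [v2, map_add, map_smul, v3, zero_add, smul_eq_mul]
    rw [d v]
    simp only [map_sub, map_smul, sub_apply, smul_apply, map_add, s1, h.1 _ m0, v4, ← ha _ v1,
      smul_eq_mul]
    ring
  simpa using congrArg Prod.fst this

omit [CompleteSpace V] in
/-- Two complex structures tamed by the same form are conjugate along a path. -/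
theorem br_conj {p J K : V →L[ℝ] V} {w : Bil V} (hp : p * p = p) (hJ : br_Cx p J) (hK : br_Cx p K)
    (tJ : br_Tame p J w) (tK : br_Tame p K w) {s : ℝ} (h0 : 0 ≤ s) (h1 : s ≤ 1 / 2) {C : V →L[ℝ] V}
    (hC : C = 1 - s • p - s • (K * J * p)) :
    IsUnit C ∧ br_Cx p (C * J * Ring.inverse C) ∧
      (s = 1 / 2 → ∀ u, p u = u → (C * J * Ring.inverse C) u = K u) := by
  have q1 : ∀ u, p (p u) = p u := fun u => congrArg (fun T : V →L[ℝ] V => T u) hp
  have e : ∀ u, C u = u - s • p u - s • K (J (p u)) := fun u => by rw [hC]; rfl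
  have k : ∀ u, p (K (J (p u))) = K (J (p u)) := fun u => hK.map _ (hJ.map _ (q1 u))
  have f : ∀ u, p (C u) = C u ↔ p u = u := fun u => by
    rw [e, map_sub, map_sub, map_smul, map_smul, q1, k, sub_left_inj, sub_left_inj]
  have hu : IsUnit C := br_unit fun v hv => by
    by_contra v0
    have v1 : p v = v := (f v).1 (by rw [hv, map_zero])
    have v2 := congrArg (fun y => w v (K y)) ((e v).symm.trans hv)
    simp only [v1, map_sub, map_smul, hK.sq _ (hJ.map _ v1), map_neg, map_zero, smul_eq_mul] at v2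
    nlinarith [tJ v v1 v0, tK v v1 v0]
  have i1 : ∀ u, C (Ring.inverse C u) = u := fun u =>
    congrArg (fun T : V →L[ℝ] V => T u) (Ring.mul_inverse_cancel C hu)
  have i2 : ∀ u, Ring.inverse C (C u) = u := fun u =>
    congrArg (fun T : V →L[ℝ] V => T u) (Ring.inverse_mul_cancel C hu)
  have g : ∀ u, p u = u → p (Ring.inverse C u) = Ring.inverse C u := fun u h =>
    (f _).1 (by rw [i1, h])
  refine ⟨hu, ⟨fun u h => (f _).2 (hJ.map _ (g u h)), fun u h => ?_⟩, fun hs u h => ?_⟩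
  · simp only [mul_apply_eq_comp, i2, hJ.sq _ (g u h), map_neg, i1]
  · have g1 := g u h
    conv_rhs => rw [← i1 u]
    simp only [mul_apply_eq_comp]
    generalize Ring.inverse C u = y at g1
    rw [e, e, hJ.map _ g1, hJ.sq _ g1, g1, map_sub, map_sub, map_smul, map_smul,
      hK.sq _ (hJ.map _ g1), map_neg, hs]
    module

end Pool.Agent.Lib.MP_ccffa6_gt
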