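import Pool.Agent.Lib.MP_ccffa6_gt.BR.Amb
import Pool.Agent.Lib.MP_ccffa6_gt.BR.Emb
import Pool.Agent.Lib.MP_ccffa6_gt.K.Proj
import Pool.Agent.Lib.MP_ccffa6_gt.K.Lin
import Pool.Agent.Lib.MP_ccffa6_gt.Iface

/-!
The bridge from embedded manifolds to the abstract manifolds of Mathlib.
-/

open Set Filter Topology Manifold
open scoped ContDiff

noncomputable section

namespace Pool.Agent.Lib.MP_ccffa6_gt

variable {m : ℕ} {M : Type} [TopologicalSpace M] [ChartedSpace (Rd m) M]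
  [IsManifold 𝓘(ℝ, Rd m) ∞ M] {V : Type} [NormedAddCommGroup V] [InnerProductSpace ℝ V]
  [FiniteDimensional ℝ V] [CompleteSpace V] {q : (V →L[ℝ] V) → V →L[ℝ] V} {e : M → V}

omit [CompleteSpace V] in
theorem br_Emb.closed [CompactSpace M] (h : br_Emb (Rd m) e) : Closed m (range e) :=
  ⟨by
    rintro _ ⟨x, rfl⟩
    obtain ⟨φ, ψ, h1, -⟩ := h.chart x
    exact ⟨φ, ψ, h1⟩, isCompact_range h.sm.continuous⟩

omit [CompleteSpace V] in
/-- A continuous projector onto the tangent spaces and the inverse of the differential. -/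
theorem br_Emb.proj [CompactSpace M] (h : br_Emb (Rd m) e) :
    ∃ (Q : M → V →L[ℝ] V) (Λ : M → V →L[ℝ] Rd m), Continuous Q ∧ (∀ x, Q x * Q x = Q x) ∧
      (∀ x u, u ∈ Tan (range e) (e x) ↔ Q x u = u) ∧
      (∀ x v, br_D (Rd m) e x (Λ x v) = Q x v) ∧ (∀ x u, Q x (br_D (Rd m) e x u) = br_D (Rd m) e x u) ∧
      ∀ x u, Λ x (br_D (Rd m) e x u) = u := by
  obtain ⟨P, U, hP, -, hU, h1⟩ := h.closed.sub.exists_proj h.closed.cpt Subset.rfl
  have h2 := fun x => h1 (e x) ⟨mem_range_self x, hU (mem_range_self x)⟩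
  have h3 : ∀ x, ∃ Λ : V →L[ℝ] Rd m, ∀ v, br_D (Rd m) e x (Λ v) = P (e x) v := fun x => by
    obtain ⟨g, hg⟩ := LinearMap.exists_leftInverse_of_injective
      (br_D (Rd m) e x : Rd m →ₗ[ℝ] V) (LinearMap.ker_eq_bot.2 (h.imm x))
    refine ⟨(LinearMap.toContinuousLinearMap g).comp (P (e x)), fun v => ?_⟩
    obtain ⟨u, hu⟩ := (h.mem_tan x _).1 ((h2 x).1 v)
    have : g (br_D (Rd m) e x u) = u := congrArg (fun T => T u) hg
    show br_D (Rd m) e x (g (P (e x) v)) = _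
    rw [← hu, this]
  choose Λ hΛ using h3
  have h4 : ∀ x u, P (e x) (br_D (Rd m) e x u) = br_D (Rd m) e x u := fun x u =>
    (h2 x).2 _ ((h.mem_tan x _).2 ⟨u, rfl⟩)
  exact ⟨fun x => P (e x), Λ, hP.continuous.comp h.sm.continuous,
    fun x => ContinuousLinearMap.ext fun v => (h2 x).2 _ ((h2 x).1 v),
    fun x u => ⟨(h2 x).2 u, fun a => a ▸ (h2 x).1 u⟩, hΛ, h4,
    fun x u => h.imm x (by rw [hΛ, h4])⟩

theorem br_gen (hq : br_Sq q) [CompactSpace M] (h : br_Emb (Rd m) e) (hi : Function.Injective e)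
    [Nonempty M] {a : Covec (H := Rd m) M} {J : Endo (H := Rd m) M} (hac : AlmostContact a J) :
    ∃ Ω : V → Bil (V × ℝ), Formal (range e) Ω ∧ ∀ β : Form1 V, ContDiff ℝ ∞ β →
      Htpy (range e) (symz β) Ω →
        IsContactForm (br_pull (Rd m) e β) ∧ InClass (br_pull (Rd m) e β) a J := by
  obtain ⟨Q, Λ, cQ, hQ, hT, l1, l2, l3⟩ := h.proj
  set D := br_D (Rd m) e with hD
  have cD : Continuous fun v : TangentBundle 𝓘(ℝ, Rd m) M => D v.proj v.snd := h.smD.continuous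
  have lift : ∀ {u : M → V}, Continuous u →
      Continuous fun x => (⟨x, Λ x (u x)⟩ : TangentBundle 𝓘(ℝ, Rd m) M) := fun {u} hu =>
    continuousOn_univ.1 (h.lift continuousOn_id (by
      simp only [← hD, l1]
      exact (cQ.clm_apply hu).continuousOn))
  let a' : M → V →L[ℝ] ℝ := fun x => (a x).comp (Λ x)
  have a1 : ∀ x u, a' x (D x u) = a x u := fun x u => congrArg (a x) (l3 x u)
  have ca : Continuous a' := continuous_clm_apply.2 fun v =>
    hac.ca.comp_continuous (continuous_const.prodMk (lift (u := fun _ => v) continuous_const))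
      fun x => ⟨rfl, mem_univ _⟩
  have a0 : ∀ x, (a' x).comp (Q x) ≠ 0 := fun x hx => hac.ne 0 rfl x (by
    ext u
    have : a' x (Q x (D x u)) = 0 := congrArg (fun T => T (D x u)) hx
    rwa [l2, a1] at this)
  let p : M → V →L[ℝ] V := fun x => br_pr (Q x) (a' x)
  have pr := fun x => br_pr_spec (hQ x) (a0 x)
  have cp : Continuous p :=
    continuousOn_univ.1 (br_pr_cont cQ.continuousOn ca.continuousOn fun x _ => a0 x)
  let K : M → V →L[ℝ] V := fun x => (D x).comp ((J x).comp ((Λ x).comp (p x)))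
  have cK : Continuous K := continuous_clm_apply.2 fun v =>
    cD.comp (hac.cJ.comp_continuous
      (continuous_const.prodMk (lift (cp.clm_apply (continuous_const (y := v))))) fun x =>
        ⟨rfl, (((pr x).2.2.2.1 _).1 (congrArg (fun T : V →L[ℝ] V => T v) (pr x).2.2.1)).2⟩)
  have k0 : ∀ x u, p x u = u → K x u = D x (J x (Λ x u)) := fun x u hu =>
    congrArg (fun y => D x (J x (Λ x y))) hu
  have hK : ∀ x, br_Cx (p x) (K x) := fun x => by
    have k1 : ∀ u, p x u = u → p x (K x u) = K x u := fun u hu => by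
      rw [k0 x u hu]
      exact ((pr x).2.2.2.1 _).2 ⟨l2 x _, (a1 x _).trans
        (hac.map 0 rfl x _ (((pr x).2.2.2.1 _).1 hu).2)⟩
    refine ⟨k1, fun u hu => ?_⟩
    have k2 := ((pr x).2.2.2.1 _).1 hu
    have k3 : J x (J x (Λ x u)) = -Λ x u := hac.sq 0 rfl x _ k2.2
    rw [k0 x _ (k1 u hu), k0 x u hu, l3, k3, map_neg, l1, k2.1]
  obtain ⟨Ω, cΩ, hΩ⟩ := br_form hT cQ cK ca hQ a0 hK
  have iv : ∀ x, Function.invFun e (e x) = x := Function.leftInverse_invFun hi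
  refine ⟨fun y => Ω (Function.invFun e y), ⟨?_, ?_⟩, fun β hβ ⟨G, hG, hG'⟩ => ?_⟩
  · rw [← image_univ, h.ind.continuousOn_image_iff]
    exact cΩ.continuousOn.congr fun x _ => congrArg Ω (iv x)
  · rintro _ ⟨x, rfl⟩
    rw [iv]
    exact (hΩ x).1
  have mt : ∀ x u s, Q x u = u → ((u, s) : V × ℝ) ∈ T1 (range e) (e x) := fun x u s hu =>
    mem_T1.2 ((hT x u).2 hu)
  have g0 : ∀ x u s v t, Q x u = u → Q x v = v →
      G (0, e x) (u, s) (v, t) = symz β (e x) (u, s) (v, t) := fun x u s v t hu hv =>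
    (hG' _ (mem_range_self x) _ (mt x u s hu) _ (mt x v t hv)).1
  have g1 : ∀ x u s v t, Q x u = u → Q x v = v →
      G (1, e x) (u, s) (v, t) = Ω x (u, s) (v, t) := fun x u s v t hu hv => by
    have := (hG' _ (mem_range_self x) _ (mt x u s hu) _ (mt x v t hv)).2
    simpa only [iv] using this
  obtain ⟨b, I, cb, cI, b1, b2, b3, b4⟩ := br_amb hq hT cQ cK hQ (H := fun z => G (z.1, e z.2))
    (hG.cont.comp (continuous_fst.prodMk (h.sm.continuous.comp continuous_snd)).continuousOn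
      fun z hz => ⟨hz.1, mem_range_self _⟩)
    (fun t ht x => hG.nd (t, e x) ⟨ht, mem_range_self _⟩) fun x u hu h0 => by
      rw [g1 x 0 1 u 0 (map_zero _) hu, (hΩ x).2.1] at h0
      have h1 := ((pr x).2.2.2.1 u).2 ⟨hu, h0⟩
      have h2 := ((pr x).2.2.2.1 _).1 ((hK x).map u h1)
      refine ⟨h2.1, ?_, (hK x).sq u h1, fun h3 => ?_⟩
      · rw [g1 x 0 1 _ 0 (map_zero _) h2.1, (hΩ x).2.1, h2.2]
      · rw [g1 x u 0 _ 0 hu h2.1]
        exact (hΩ x).2.2 u h1 h3
  let A : ℝ → Covec (H := Rd m) M := fun t x => (b (t, x)).comp (D x)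
  let N : ℝ → Endo (H := Rd m) M := fun t x => (Λ x).comp ((I (t, x)).comp (D x))
  have A0 : A 0 = br_pull (Rd m) e β := by
    funext x
    ext u
    show b (0, x) (D x u) = β (e x) (D x u)
    rw [(b2 x _).1, g0 x 0 1 _ 0 (map_zero _) (l2 x u), symz_apply]
    simp
  have A1 : A 1 = a := by
    funext x
    ext u
    show b (1, x) (D x u) = a x u
    rw [(b2 x _).2, g1 x 0 1 _ 0 (map_zero _) (l2 x u), (hΩ x).2.1, a1]
  have n1 : ∀ t ∈ Icc (0 : ℝ) 1, ∀ x u, A t x u = 0 → D x (N t x u) = I (t, x) (D x u) :=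
    fun t ht x u hu => (l1 x _).trans ((b1 t ht x).2 _ (l2 x u) hu).1
  have n2 : ∀ t x u, A t x u = 0 → (if t = 1 then J else N t) x u = N t x u := fun t x u hu => by
    split_ifs with ht
    · subst ht
      have h1 : a' x (D x u) = 0 := by rw [a1, ← A1]; exact hu
      show J x u = Λ x (I (1, x) (D x u))
      rw [b3 x _ (l2 x u) hu, k0 x _ (((pr x).2.2.2.1 _).2 ⟨l2 x u, h1⟩), l3, l3]
    · rfl
  have n3 : ∀ t ∈ Icc (0 : ℝ) 1, ∀ x u, A t x u = 0 → A t x (N t x u) = 0 := fun t ht x u hu => by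
    show b (t, x) (D x (N t x u)) = 0
    rw [n1 t ht x u hu]
    exact ((b1 t ht x).2 _ (l2 x u) hu).2.1
  have cz : Continuous fun z : ℝ × TangentBundle 𝓘(ℝ, Rd m) M => (z.1, z.2.proj) :=
    continuous_fst.prodMk ((FiberBundle.continuous_proj _ _).comp continuous_snd)
  have hA : ACFamily (Icc 0 1) A fun t => if t = 1 then J else N t := by
    refine ⟨(cb.comp cz.continuousOn fun z hz => ⟨hz.1, mem_univ _⟩).clm_apply
      (cD.comp continuous_snd).continuousOn, fun t ht x hx => (b1 t ht x).1 ?_, ?_,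
      fun t ht x u hu => ?_, fun t ht x u hu => ?_⟩
    · ext v
      have : b (t, x) (D x (Λ x v)) = 0 := congrArg (fun T => T (Λ x v)) hx
      rwa [l1] at this
    · refine ContinuousOn.congr (h.lift (u := fun z => N z.1 z.2.proj z.2.snd)
        (continuous_snd.comp cz).continuousOn ?_) fun z hz => congrArg _ (n2 _ _ _ hz.2)
      exact ((cI.comp cz.continuousOn fun z hz => ⟨hz.1, mem_univ _⟩).clm_apply
        (cD.comp continuous_snd).continuousOn).congr fun z hz => n1 _ hz.1 _ _ hz.2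
    · rw [n2 t x u hu]
      exact n3 t ht x u hu
    · rw [n2 t x u hu, n2 t x _ (n3 t ht x u hu)]
      show Λ x (I (t, x) (D x (N t x u))) = -u
      rw [n1 t ht x u hu, ((b1 t ht x).2 _ (l2 x u) hu).2.2, map_neg, l3]
      rfl
  have z0 : (0 : ℝ) ∈ Icc (0 : ℝ) 1 := ⟨le_rfl, zero_le_one⟩
  have d : ∀ x (u v : Rd m), extD (br_pull (Rd m) e β) x u v = G (0, e x) (D x u, 0) (D x v, 0) :=
    fun x u v => by
      rw [h.extD hβ, g0 x _ 0 _ 0 (l2 x u) (l2 x v), symz_apply]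
      simp [hD]
  have hc : Compatible (br_pull (Rd m) e β) (N 0) := by
    rw [← A0] at d ⊢
    refine ⟨fun x u v hu hv => ?_, fun x u hu h0 => ?_⟩
    · rw [d, d, n1 0 z0 x u hu, n1 0 z0 x v hv]
      exact (b4 x _ (l2 x u) hu).2 _ (l2 x v) hv
    · rw [d, n1 0 z0 x u hu]
      exact (b4 x _ (l2 x u) hu).1 fun h1 => h0 (h.imm x (h1.trans (map_zero _).symm))
  refine ⟨⟨h.smooth hβ, A0 ▸ hA.ne 0 z0, fun x u hu hv => ?_⟩, N 0, hc, A, _, hA, A0,
    if_neg zero_ne_one, A1, if_pos rfl⟩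
  by_contra h0
  exact (hc.pos x u hu h0).ne' (hv _ (A0 ▸ n3 0 z0 x u (A0 ▸ hu)))

theorem BR_main (n : ℕ) : BRStmt n := by
  intro hE M _ _ _ _ _ _ a J hac
  obtain ⟨L, e, h1, h2, h3⟩ := exists_embedding_euclidean_of_compact (I := 𝓡 (2 * n + 1)) (M := M)
  have h : br_Emb (Rd (2 * n + 1)) e := ⟨h1, h2.isInducing, h3⟩
  obtain ⟨Ω, hΩ, h4⟩ := br_gen (br_sq L) h h2.injective hac
  obtain ⟨β, b1, b2, b3⟩ := hE _ _ Ω h.closed (isConnected_range h1.continuous) hΩ
  exact ⟨_, (h4 β b1.sm b2).1, (h4 β b1.sm b2).2, fun hd => b3 (hd.map e univ h2.injective.injOn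
    (fun _ _ _ _ => mapsTo_univ _ _) fun _ _ _ hf => h.cmap hf)⟩

end Pool.Agent.Lib.MP_ccffa6_gt
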