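import Pool.Agent.Lib.MP_ccffa6_gt.BR.Sqrt

/-!
Polar decomposition in continuous families: a nondegenerate alternating form on the range of a
projector has a compatible complex structure which depends continuously on the data.
-/

open Set Filter Topology
open scoped ContDiff RealInnerProductSpace

noncomputable section

namespace Pool.Agent.Lib.MP_ccffa6_gt

variable {V : Type} [NormedAddCommGroup V] [InnerProductSpace ℝ V] [FiniteDimensional ℝ V]
  [CompleteSpace V] {q : (V →L[ℝ] V) → V →L[ℝ] V}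

theorem br_unit {P : V →L[ℝ] V} (h : ∀ v, P v = 0 → v = 0) : IsUnit P := by
  have h1 : Function.Injective P := (injective_iff_map_eq_zero P).2 h
  have h2 : Function.Surjective P :=
    (LinearMap.injective_iff_surjective (f := (P : V →ₗ[ℝ] V))).1 h1
  exact ContinuousLinearMap.isUnit_iff_bijective.2 ⟨h1, h2⟩

omit [FiniteDimensional ℝ V] in
theorem br_star_l (P : V →L[ℝ] V) (u v : V) : ⟪star P u, v⟫ = ⟪u, P v⟫ :=
  ContinuousLinearMap.adjoint_inner_left P v u

omit [FiniteDimensional ℝ V] in
theorem br_star_r (P : V →L[ℝ] V) (u v : V) : ⟪u, star P v⟫ = ⟪P u, v⟫ :=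
  ContinuousLinearMap.adjoint_inner_right P u v

omit [FiniteDimensional ℝ V] in
theorem br_inv_cont {X : Type} [TopologicalSpace X] {s : Set X} {P : X → V →L[ℝ] V}
    (hP : ContinuousOn P s) (h : ∀ x ∈ s, IsUnit (P x)) :
    ContinuousOn (fun x => Ring.inverse (P x)) s := fun x hx => by
  obtain ⟨u, hu⟩ := h x hx
  exact ContinuousAt.comp_continuousWithinAt (f := P) (hu ▸ NormedRing.inverse_continuousAt u)
    (hP x hx)

theorem br_comm_inv {R : Type} [Ring R] {a b : R} (h : Commute a b) (ha : IsUnit a) :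
    Commute (Ring.inverse a) b := by
  obtain ⟨u, rfl⟩ := ha
  rw [Ring.inverse_unit]
  exact h.units_inv_left

/-- The orthogonal projector with the same range as the projector `p`. -/
def br_orth (p : V →L[ℝ] V) : V →L[ℝ] V :=
  p * star p * Ring.inverse (1 + star (p - star p) * (p - star p))

theorem br_z_unit (q : V →L[ℝ] V) : IsUnit (1 + star q * q) := br_unit fun v hv => by
  have h1 : ⟪v, (1 + star q * q) v⟫ = ‖v‖ ^ 2 + ‖q v‖ ^ 2 := by
    rw [add_apply, inner_add_right, mul_apply_eq_comp, br_star_r,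
      real_inner_self_eq_norm_sq, one_apply_eq_self, real_inner_self_eq_norm_sq]
  rw [hv, inner_zero_right] at h1
  have h2 : ‖v‖ ^ 2 = 0 := by nlinarith [sq_nonneg ‖v‖, sq_nonneg ‖q v‖]
  simpa using h2

theorem br_orth_spec {p : V →L[ℝ] V} (hp : p * p = p) :
    star (br_orth p) = br_orth p ∧ p * br_orth p = br_orth p ∧ br_orth p * p = p := by
  set z := 1 + star (p - star p) * (p - star p) with hz
  have hu : IsUnit z := br_z_unit _
  have hr : star p * star p = star p := by rw [← star_mul, hp]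
  have e0 : z = 1 - p - star p + p * star p + star p * p := by
    rw [hz, star_sub, star_star, sub_mul, mul_sub, mul_sub, hp, hr]
    abel
  have e1 : z * p = p * star p * p := by
    rw [e0]
    simp only [add_mul, sub_mul, one_mul, mul_assoc, hp]
    abel
  have e2 : p * z = p * star p * p := by
    rw [e0]
    simp only [mul_add, mul_sub, mul_one, ← mul_assoc, hp]
    abel
  have sz : star z = z := by rw [hz, star_add, star_one, star_mul, star_star]
  have c1 : Commute p z := e2.trans e1.symm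
  have c2 : Commute (star p) z := by
    have := congrArg star c1.eq
    rw [star_mul, star_mul, sz] at this
    exact this.symm
  have d1 : Commute p (Ring.inverse z) := (br_comm_inv c1.symm hu).symm
  have d2 : Commute (star p) (Ring.inverse z) := (br_comm_inv c2.symm hu).symm
  refine ⟨?_, ?_, ?_⟩
  · rw [br_orth, ← hz, star_mul, star_mul, star_star, ← Ring.inverse_star, sz]
    exact ((d1.mul_left d2).eq).symm
  · rw [br_orth, ← mul_assoc, ← mul_assoc, hp]
  · rw [br_orth, ← hz, mul_assoc, ← d1.eq, ← mul_assoc, ← e2, mul_assoc, Ring.mul_inverse_cancel _ hu,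
      mul_one]

theorem br_orth_cont {X : Type} [TopologicalSpace X] {s : Set X} {p : X → V →L[ℝ] V}
    (hp : ContinuousOn p s) : ContinuousOn (fun x => br_orth (p x)) s :=
  (hp.mul hp.star).mul (br_inv_cont (continuousOn_const.add ((hp.sub hp.star).star.mul
    (hp.sub hp.star))) fun _ _ => br_z_unit _)

theorem br_pos_lt (hq : br_Sq q) {S : V →L[ℝ] V} (h : br_Pos S) (hu : IsUnit S) {y : V} (hy : y ≠ 0) :
    0 < ⟪y, S y⟫ := by
  refine (h.2 y).lt_of_ne fun e => hy ?_
  have h1 : ⟪y, S y⟫ = ‖q S y‖ ^ 2 := by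
    conv_lhs => rw [← hq.mul h]
    rw [mul_apply_eq_comp, ← br_star_l, (hq.pos S).1, real_inner_self_eq_norm_sq]
  have h2 : q S y = 0 := by simpa [← e] using h1.symm
  have h3 : S y = 0 := by rw [← hq.mul h, mul_apply_eq_comp, h2, map_zero]
  exact (injective_iff_map_eq_zero S).1 (ContinuousLinearMap.isUnit_iff_bijective.1 hu).1 y h3

/-- The pointwise polar decomposition. -/
theorem br_polar_pt (hq : br_Sq q) {O A : V →L[ℝ] V} (hO : star O = O) (hOO : O * O = O) (h1 : O * A = A)
    (h2 : star A = -A) (h3 : ∀ u, O u = u → A u = 0 → u = 0) :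
    br_Pos (star A * A + (1 - O)) ∧ IsUnit (q (star A * A + (1 - O))) ∧
    ∀ J, J = Ring.inverse (q (star A * A + (1 - O))) * A → O * J = J ∧ J * J = -O ∧
      (∀ u v, ⟪A (J u), J v⟫ = ⟪A u, v⟫) ∧ ∀ u, O u = u → u ≠ 0 → 0 < ⟪A u, J u⟫ := by
  set P := star A * A + (1 - O) with hP
  have h4 : A * O = A := by
    have := congrArg star h1
    rw [star_mul, hO, h2, neg_mul, neg_inj] at this
    exact this
  have q1 : (1 - O) * (1 - O) = 1 - O := by
    simp only [mul_sub, sub_mul, one_mul, mul_one, hOO]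
    abel
  have q2 : star (1 - O) = 1 - O := by rw [star_sub, star_one, hO]
  have e : ∀ v, ⟪v, P v⟫ = ‖A v‖ ^ 2 + ‖(1 - O) v‖ ^ 2 := fun v => by
    rw [hP, add_apply, inner_add_right, mul_apply_eq_comp, br_star_r,
      real_inner_self_eq_norm_sq]
    conv_lhs => rw [← q1]
    rw [mul_apply_eq_comp, ← br_star_l, q2, real_inner_self_eq_norm_sq]
  have hpos : br_Pos P := ⟨by rw [hP, star_add, star_mul, star_star, q2], fun v => by
    rw [e]; positivity⟩
  have hPu : IsUnit P := br_unit fun v hv => by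
    have := e v
    rw [hv, inner_zero_right] at this
    have a1 : ‖A v‖ ^ 2 = 0 := by nlinarith [sq_nonneg ‖A v‖, sq_nonneg ‖(1 - O) v‖]
    have a2 : ‖(1 - O) v‖ ^ 2 = 0 := by nlinarith [sq_nonneg ‖A v‖, sq_nonneg ‖(1 - O) v‖]
    have a3 : (1 - O) v = 0 := by simpa using a2
    refine h3 v ?_ (by simpa using a1)
    rw [sub_apply, one_apply_eq_self, sub_eq_zero] at a3
    exact a3.symm
  set S := q P with hS
  have hSS : S * S = P := hq.mul hpos
  have hSu : IsUnit S := br_unit fun v hv =>
    (injective_iff_map_eq_zero P).1 (ContinuousLinearMap.isUnit_iff_bijective.1 hPu).1 v (by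
      rw [← hSS, mul_apply_eq_comp, hv, map_zero])
  have cA : Commute P A := by
    show P * A = A * P
    rw [hP, h2]
    simp only [add_mul, mul_add, sub_mul, mul_sub, one_mul, mul_one, h1, h4, neg_mul, mul_neg,
      mul_assoc]
  have cO : Commute P O := by
    show P * O = O * P
    rw [hP, h2]
    simp only [add_mul, mul_add, sub_mul, mul_sub, one_mul, mul_one, hOO, neg_mul, mul_neg]
    rw [mul_assoc, h4, ← mul_assoc, h1]
  have dA : Commute (Ring.inverse S) A := br_comm_inv (hq.comm cA) hSu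
  have dO : Commute (Ring.inverse S) O := br_comm_inv (hq.comm cO) hSu
  refine ⟨hpos, hSu, fun J hJ => ?_⟩
  have j1 : O * J = J := by rw [hJ, ← mul_assoc, ← dO.eq, mul_assoc, h1]
  have j0 : A * A = -(S * S * O) := by
    rw [hSS, hP, h2]
    simp only [add_mul, sub_mul, one_mul, hOO, neg_mul, mul_assoc, h4]
    abel
  have j2 : J * J = -O := by
    rw [hJ, mul_assoc, ← mul_assoc A, ← dA.eq, mul_assoc, j0, mul_neg, mul_neg, mul_assoc S,
      Ring.inverse_mul_cancel_left _ _ hSu, Ring.inverse_mul_cancel_left _ _ hSu]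
  have j3 : star J = -J := by
    rw [hJ, star_mul, ← Ring.inverse_star, (hq.pos P).1, h2, neg_mul, dA.eq]
  have j4 : A * J = J * A := by rw [hJ, ← mul_assoc, ← dA.eq]
  have j5 : S * J = A := by rw [hJ, Ring.mul_inverse_cancel_left _ _ hSu]
  refine ⟨j1, j2, fun u v => ?_, fun u hu h0 => ?_⟩
  · have : star J * (A * J) = A := by rw [j3, j4, neg_mul, ← mul_assoc, j2, neg_mul, neg_neg, h1]
    rw [← br_star_l, ← mul_apply_eq_comp, ← mul_apply_eq_comp, mul_assoc,
      this]
  · have a1 : J u ≠ 0 := fun a => h0 (by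
      have := congrArg (fun T : V →L[ℝ] V => T u) j2
      simp only [mul_apply_eq_comp, a, map_zero, neg_apply, hu] at this
      exact neg_eq_zero.1 this.symm)
    have := br_pos_lt hq (hq.pos P) hSu a1
    rwa [← mul_apply_eq_comp, j5, real_inner_comm] at this

/-- `J` is a complex structure on the range of `p`. -/
structure br_Cx (p J : V →L[ℝ] V) : Prop where
  map : ∀ u, p u = u → p (J u) = J u
  sq : ∀ u, p u = u → J (J u) = -u

/-- `J` is tamed by `w` on the range of `p`. -/
def br_Tame (p J : V →L[ℝ] V) (w : Bil V) : Prop := ∀ u, p u = u → u ≠ 0 → 0 < w u (J u)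

theorem br_polar (hq : br_Sq q) {X : Type} [TopologicalSpace X] {s : Set X} {p : X → V →L[ℝ] V}
    {w : X → Bil V} (hp : ContinuousOn p s) (hw : ContinuousOn w s)
    (hpp : ∀ x ∈ s, p x * p x = p x) (ha : ∀ x ∈ s, ∀ u, p x u = u → w x u u = 0)
    (hn : ∀ x ∈ s, ∀ u, p x u = u → (∀ v, p x v = v → w x u v = 0) → u = 0) :
    ∃ J : X → V →L[ℝ] V, ContinuousOn J s ∧ ∀ x ∈ s, br_Cx (p x) (J x) ∧
      br_Tame (p x) (J x) (w x) ∧
      ∀ u v, p x u = u → p x v = v → w x (J x u) (J x v) = w x u v := by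
  let O : X → V →L[ℝ] V := fun x => br_orth (p x)
  let A : X → V →L[ℝ] V := fun x =>
    O x * InnerProductSpace.continuousLinearMapOfBilin (𝕜 := ℝ) (w x) * O x
  have cO : ContinuousOn O s := br_orth_cont hp
  have cW : ContinuousOn (fun x => InnerProductSpace.continuousLinearMapOfBilin (𝕜 := ℝ) (w x)) s := by
    rw [continuousOn_clm_apply]
    intro v
    exact (InnerProductSpace.toDual ℝ V).symm.continuous.comp_continuousOn
      (hw.clm_apply continuousOn_const)
  have cA : ContinuousOn A s := (cO.mul cW).mul cO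
  have key : ∀ x ∈ s, (∀ u, p x (O x u) = O x u) ∧ (∀ u, p x u = u → O x u = u) ∧
      (∀ u v, ⟪A x u, v⟫ = w x (O x u) (O x v)) ∧ star (O x) = O x ∧ O x * O x = O x ∧
      O x * A x = A x ∧ star (A x) = -A x ∧ ∀ u, O x u = u → A x u = 0 → u = 0 := by
    intro x hx
    obtain ⟨o1, o2, o3⟩ := br_orth_spec (hpp x hx)
    have k1 : ∀ u, p x (O x u) = O x u := fun u => congrArg (fun T : V →L[ℝ] V => T u) o2
    have k2 : ∀ u, p x u = u → O x u = u := fun u hu => by
      have := congrArg (fun T : V →L[ℝ] V => T u) o3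
      simpa [hu] using this
    have k3 : ∀ u v, ⟪A x u, v⟫ = w x (O x u) (O x v) := fun u v => by
      show ⟪O x (InnerProductSpace.continuousLinearMapOfBilin (𝕜 := ℝ) (w x) (O x u)), v⟫ = _
      rw [← br_star_r, show star (O x) = O x from o1,
        InnerProductSpace.continuousLinearMapOfBilin_apply]
    have k4 : O x * O x = O x := ContinuousLinearMap.ext fun u => k2 _ (k1 u)
    refine ⟨k1, k2, k3, o1, k4, ?_, ?_, fun u hu h0 => hn x hx u (hu ▸ k1 u) fun v hv => ?_⟩
    · show O x * (O x * _ * O x) = O x * _ * O x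
      rw [← mul_assoc, ← mul_assoc, k4]
    · refine ContinuousLinearMap.ext fun u => ext_inner_right ℝ fun v => ?_
      have := ha x hx (O x u + O x v) (by rw [map_add, k1, k1])
      simp only [map_add, add_apply, ha x hx _ (k1 _)] at this
      rw [br_star_l, real_inner_comm, k3, neg_apply, inner_neg_left, k3]
      linarith
    · rw [← hu, ← k2 v hv, ← k3, h0, inner_zero_left]
  refine ⟨fun x => Ring.inverse (q (star (A x) * A x + (1 - O x))) * A x, ?_, fun x hx => ?_⟩
  · refine (br_inv_cont (hq.cont.comp ((cA.star.mul cA).add (continuousOn_const.sub cO))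
      fun x hx => ?_) fun x hx => ?_).mul cA
    · obtain ⟨-, -, -, k4, k5, k6, k7, k8⟩ := key x hx
      exact (br_polar_pt hq k4 k5 k6 k7 k8).1
    · obtain ⟨-, -, -, k4, k5, k6, k7, k8⟩ := key x hx
      exact (br_polar_pt hq k4 k5 k6 k7 k8).2.1
  · obtain ⟨k1, k2, k3, k4, k5, k6, k7, k8⟩ := key x hx
    obtain ⟨j1, j2, j3, j4⟩ := (br_polar_pt hq k4 k5 k6 k7 k8).2.2 _ rfl
    beta_reduce
    generalize Ring.inverse (q (star (A x) * A x + (1 - O x))) * A x = J at *
    have j0 : ∀ u, O x (J u) = J u := fun u => congrArg (fun T : V →L[ℝ] V => T u) j1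
    refine ⟨⟨fun u _ => j0 u ▸ k1 _, fun u hu => ?_⟩, fun u hu h0 => ?_, fun u v hu hv => ?_⟩
    · have := congrArg (fun T : V →L[ℝ] V => T u) j2
      simpa [k2 u hu] using this
    · have := j4 u (k2 u hu) h0
      rwa [k3, k2 u hu, j0] at this
    · have := j3 u v
      rwa [k3, k3, j0, j0, k2 u hu, k2 v hv] at this

end Pool.Agent.Lib.MP_ccffa6_gt
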