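import Pool.Agent.Lib.MP_ccffa6_gt.Defs

/-!
The positive square root of a positive operator on Euclidean space and its continuity.
-/

open Set Filter Topology Matrix
open scoped ContDiff RealInnerProductSpace MatrixOrder Matrix.Norms.L2Operator

noncomputable section

namespace Pool.Agent.Lib.MP_ccffa6_gt

variable {L : ℕ}

/-- Self-adjoint operators with nonnegative quadratic form. -/
def br_Pos {V : Type} [NormedAddCommGroup V] [InnerProductSpace ℝ V] [CompleteSpace V]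
    (P : V →L[ℝ] V) : Prop := star P = P ∧ ∀ v, 0 ≤ ⟪v, P v⟫

/-- The properties of the positive square root. -/
structure br_Sq {V : Type} [NormedAddCommGroup V] [InnerProductSpace ℝ V] [CompleteSpace V]
    (q : (V →L[ℝ] V) → V →L[ℝ] V) : Prop where
  pos : ∀ P, br_Pos (q P)
  mul : ∀ {P}, br_Pos P → q P * q P = P
  comm : ∀ {P B}, Commute P B → Commute (q P) B
  cont : ContinuousOn q {P | br_Pos P}

/-- The matrix of an operator. -/
def br_mat (P : Rd L →L[ℝ] Rd L) : Matrix (Fin L) (Fin L) ℝ :=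
  (toEuclideanCLM (n := Fin L) (𝕜 := ℝ)).symm P

/-- The positive square root. -/
def br_sqrt (P : Rd L →L[ℝ] Rd L) : Rd L →L[ℝ] Rd L :=
  toEuclideanCLM (n := Fin L) (𝕜 := ℝ) (CFC.sqrt (br_mat P))

theorem br_pos_iff (A : Matrix (Fin L) (Fin L) ℝ) :
    br_Pos (toEuclideanCLM (n := Fin L) (𝕜 := ℝ) A) ↔ 0 ≤ A := by
  rw [Matrix.nonneg_iff_posSemidef, Matrix.posSemidef_iff_dotProduct_mulVec]
  refine and_congr ?_ ⟨fun h x => ?_, fun h v => ?_⟩
  · rw [← map_star]
    exact (toEuclideanCLM (n := Fin L) (𝕜 := ℝ)).injective.eq_iff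
  · have := h (WithLp.toLp 2 x)
    rw [inner_toEuclideanCLM] at this
    simpa using this
  · simpa [inner_toEuclideanCLM] using h v.ofLp

theorem br_Pos.mat {P : Rd L →L[ℝ] Rd L} (h : br_Pos P) : 0 ≤ br_mat P :=
  (br_pos_iff _).1 (by simpa [br_mat] using h)

theorem br_sqrt_pos (P : Rd L →L[ℝ] Rd L) : br_Pos (br_sqrt P) :=
  (br_pos_iff _).2 (CFC.sqrt_nonneg _)

theorem br_sqrt_mul {P : Rd L →L[ℝ] Rd L} (h : br_Pos P) : br_sqrt P * br_sqrt P = P := by
  rw [br_sqrt, ← map_mul, CFC.sqrt_mul_sqrt_self _ h.mat]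
  simp [br_mat]

theorem br_sqrt_comm {P B : Rd L →L[ℝ] Rd L} (h : Commute P B) : Commute (br_sqrt P) B := by
  have h1 : Commute (br_mat P) (br_mat B) := h.map (toEuclideanCLM (n := Fin L) (𝕜 := ℝ)).symm
  have h2 : Commute (CFC.sqrt (br_mat P)) (br_mat B) := by
    rw [CFC.sqrt]
    exact h1.cfcₙ_nnreal _
  simpa [br_mat, br_sqrt] using h2.map (toEuclideanCLM (n := Fin L) (𝕜 := ℝ))

theorem br_sqrt_cont : ContinuousOn (br_sqrt (L := L)) {P | br_Pos P} := by
  have c1 : Continuous (toEuclideanCLM (n := Fin L) (𝕜 := ℝ)) :=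
    LinearMap.continuous_of_finiteDimensional
      (toEuclideanCLM (n := Fin L) (𝕜 := ℝ)).toAlgEquiv.toLinearMap
  have c2 : Continuous (br_mat (L := L)) :=
    LinearMap.continuous_of_finiteDimensional
      (toEuclideanCLM (n := Fin L) (𝕜 := ℝ)).symm.toAlgEquiv.toLinearMap
  exact c1.comp_continuousOn (CFC.continuousOn_sqrt.comp c2.continuousOn fun P hP => br_Pos.mat hP)

theorem br_sq (L : ℕ) : br_Sq (br_sqrt (L := L)) :=
  ⟨br_sqrt_pos, br_sqrt_mul, br_sqrt_comm, br_sqrt_cont⟩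

end Pool.Agent.Lib.MP_ccffa6_gt
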